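import Mathlib

/-!
# The modified Erdős–Ginzburg–Ziv constant of `(ℤ/2^k)^d`

We work with multisets of integer vectors, considered modulo `2 ^ k`. `ZS k S` says that `S` has a
sub-multiset of size `2 ^ k` with sum zero modulo `2 ^ k`. By the classical halving argument
`ZS k S` holds as soon as `S` has more than `(2 ^ k - 1) 2 ^ d` elements. We show by induction
on `k` that a multiset with exactly `(2 ^ k - 1) 2 ^ d` elements for which `ZS k S` fails consists,
modulo `2 ^ k`, of `2 ^ d` vectors (one in each class modulo `2`), each taken `2 ^ k - 1` times.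
If `d ≤ k` such a multiset is not zero-sum: otherwise each of these vectors taken `2 ^ (k - d)`
times would be a zero-sum sub-multiset of size `2 ^ k`.
-/

set_option autoImplicit false

namespace Pool.Agent.Results.MP_4c442e_co.BergerWang

open Multiset

variable {d : ℕ}

theorem exists_of_le_map {α β : Type*} (f : α → β) {S : Multiset α} {T : Multiset β}
    (h : T ≤ S.map f) : ∃ T' ≤ S, T = T'.map f := by
  have h1 : T ∈ powersetCard (card T) (S.map f) := mem_powersetCard.2 ⟨h, rfl⟩
  rw [powersetCard_map, Multiset.mem_map] at h1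
  obtain ⟨T', hT', rfl⟩ := h1
  exact ⟨T', (mem_powersetCard.1 hT').1, rfl⟩

/-- The class of an integer vector modulo `2`. -/
def cls (v : Fin d → ℤ) : Fin d → ZMod 2 := fun i => (v i : ZMod 2)

/-- Half of the sum of a pair. -/
def half (p : (Fin d → ℤ) × (Fin d → ℤ)) : Fin d → ℤ := fun i => (p.1 i + p.2 i) / 2

theorem two_half {p : (Fin d → ℤ) × (Fin d → ℤ)} (h : cls p.1 = cls p.2) (i : Fin d) :
    2 * half p i = p.1 i + p.2 i := by
  have h1 : (p.1 i : ZMod 2) = (p.2 i : ZMod 2) := congrFun h i
  have h2 : (2 : ℤ) ∣ p.1 i + p.2 i := by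
    have := (ZMod.intCast_eq_intCast_iff_dvd_sub _ _ _).1 h1
    have h3 : (2 : ℤ) ∣ p.2 i - p.1 i := by exact_mod_cast this
    omega
  exact Int.mul_ediv_cancel' h2

/-- `S` has a sub-multiset of size `2 ^ k` whose sum is zero modulo `2 ^ k`. -/
def ZS (k : ℕ) (S : Multiset (Fin d → ℤ)) : Prop :=
  ∃ T ≤ S, card T = 2 ^ k ∧ ∀ i, (2 ^ k : ℤ) ∣ T.sum i

theorem ZS.mono {k : ℕ} {S S' : Multiset (Fin d → ℤ)} (h : S ≤ S') (hS : ZS k S) : ZS k S' := by
  obtain ⟨T, hT, h1, h2⟩ := hS
  exact ⟨T, hT.trans h, h1, h2⟩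

theorem exists_pair {S : Multiset (Fin d → ℤ)} (h : ¬ (S.map cls).Nodup) :
    ∃ x y S', S = x ::ₘ y ::ₘ S' ∧ cls x = cls y := by
  rw [nodup_iff_le] at h
  push Not at h
  obtain ⟨u, hu⟩ := h
  obtain ⟨T, hT, h1⟩ := exists_of_le_map cls hu
  have h2 : card T = 2 := by
    have := congrArg card h1
    simpa using this.symm
  obtain ⟨x, y, rfl⟩ := card_eq_two.1 h2
  obtain ⟨S', rfl⟩ := Multiset.le_iff_exists_add.1 hT
  refine ⟨x, y, S', by simp, ?_⟩
  have h3 : cls x ∈ u ::ₘ u ::ₘ 0 := by rw [h1]; simp
  have h4 : cls y ∈ u ::ₘ u ::ₘ 0 := by rw [h1]; simp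
  simp at h3 h4
  rw [h3, h4]

theorem card_le_of_nodup {S : Multiset (Fin d → ℤ)} (h : (S.map cls).Nodup) : card S ≤ 2 ^ d := by
  have h1 : card (S.map cls) = (S.map cls).toFinset.card := by
    rw [Multiset.toFinset_card_of_nodup h]
  have h2 := Finset.card_le_univ (S.map cls).toFinset
  rw [← h1] at h2
  simpa using h2

theorem pairing (m : ℕ) : ∀ S : Multiset (Fin d → ℤ), 2 * m + 2 ^ d ≤ card S + 1 →
    ∃ (P : Multiset ((Fin d → ℤ) × (Fin d → ℤ))) (R : Multiset (Fin d → ℤ)),
      S = P.map Prod.fst + P.map Prod.snd + R ∧ card P = m ∧ ∀ p ∈ P, cls p.1 = cls p.2 := by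
  induction m with
  | zero => intro S _; exact ⟨0, S, by simp, by simp, by simp⟩
  | succ m ih =>
    intro S hS
    have h1 : ¬ (S.map cls).Nodup := fun h => by
      have := card_le_of_nodup h
      omega
    obtain ⟨x, y, S', rfl, hxy⟩ := exists_pair h1
    obtain ⟨P, R, hP, hc, hcls⟩ := ih S' (by simp at hS ⊢; omega)
    refine ⟨(x, y) ::ₘ P, R, ?_, by simp [hc], ?_⟩
    · rw [hP]
      simp only [map_cons, Multiset.cons_add, Multiset.add_cons]
      exact Multiset.cons_swap _ _ _
    · intro p hp
      rcases mem_cons.1 hp with rfl | hp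
      · exact hxy
      · exact hcls p hp

theorem lift_pairs {k : ℕ} {P : Multiset ((Fin d → ℤ) × (Fin d → ℤ))}
    (hP : ∀ p ∈ P, cls p.1 = cls p.2) (h : ZS k (P.map half)) :
    ZS (k + 1) (P.map Prod.fst + P.map Prod.snd) := by
  obtain ⟨T, hT, hc, hs⟩ := h
  obtain ⟨Q, hQ, rfl⟩ := exists_of_le_map half hT
  refine ⟨Q.map Prod.fst + Q.map Prod.snd, add_le_add (map_le_map hQ) (map_le_map hQ), ?_, ?_⟩
  · simp only [card_map] at hc
    simp only [card_add, card_map, hc]
    ring
  · intro i
    have key : ∀ Q : Multiset ((Fin d → ℤ) × (Fin d → ℤ)), (∀ p ∈ Q, cls p.1 = cls p.2) →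
        (Q.map Prod.fst + Q.map Prod.snd).sum i = 2 * (Q.map half).sum i := by
      intro Q
      induction Q using Multiset.induction with
      | empty => simp
      | cons p Q ih =>
        intro h
        have h1 := ih fun q hq => h q (mem_cons_of_mem hq)
        have h2 := two_half (h p (mem_cons_self p Q)) i
        simp only [map_cons, sum_cons, sum_add, Pi.add_apply] at h1 ⊢
        linarith
    rw [key Q fun p hp => hP p (mem_of_le hQ hp), pow_succ']
    exact mul_dvd_mul_left 2 (hs i)

/-- Harborth's bound. -/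
theorem harborth (k : ℕ) : ∀ S : Multiset (Fin d → ℤ), (2 ^ k - 1) * 2 ^ d + 1 ≤ card S →
    ZS k S := by
  induction k with
  | zero =>
    intro S hS
    have : 0 < card S := by omega
    obtain ⟨x, hx⟩ := card_pos_iff_exists_mem.1 this
    exact ⟨{x}, by simpa using hx, by simp, by simp⟩
  | succ k ih =>
    intro S hS
    have hpos : 1 ≤ 2 ^ k := Nat.one_le_two_pow
    have e1 : (2 ^ (k + 1) - 1) * 2 ^ d = 2 * ((2 ^ k - 1) * 2 ^ d) + 2 ^ d := by
      have : 2 ^ (k + 1) - 1 = 2 * (2 ^ k - 1) + 1 := by rw [pow_succ]; omega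
      rw [this]; ring
    obtain ⟨P, R, rfl, hc, hP⟩ := pairing ((2 ^ k - 1) * 2 ^ d + 1) S (by omega)
    have h1 := ih (P.map half) (by simp [hc])
    exact (lift_pairs hP h1).mono (Multiset.le_add_right _ _)

/-- Sum of a multiset all of whose members are congruent to `x` modulo `N`. -/
theorem sum_congr_of_all {N : ℤ} (x : Fin d → ℤ) (i : Fin d) : ∀ T : Multiset (Fin d → ℤ),
    (∀ y ∈ T, N ∣ y i - x i) → N ∣ T.sum i - (card T : ℤ) * x i := by
  intro T
  induction T using Multiset.induction with
  | empty => simp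
  | cons y T ih =>
    intro h
    have h1 := ih fun z hz => h z (mem_cons_of_mem hz)
    have h2 := h y (mem_cons_self y T)
    have : (y ::ₘ T).sum i - (card (y ::ₘ T) : ℤ) * x i
        = (y i - x i) + (T.sum i - (card T : ℤ) * x i) := by
      simp only [sum_cons, Pi.add_apply, card_cons]
      push_cast
      ring
    rw [this]
    exact dvd_add h2 h1

theorem exists_le_card {α : Type*} {S : Multiset α} {m : ℕ} (h : m ≤ card S) :
    ∃ T ≤ S, card T = m := by
  have : 0 < card (powersetCard m S) := by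
    rw [card_powersetCard]; exact Nat.choose_pos h
  obtain ⟨T, hT⟩ := card_pos_iff_exists_mem.1 this
  exact ⟨T, (mem_powersetCard.1 hT).1, (mem_powersetCard.1 hT).2⟩

theorem count_le {k : ℕ} {S : Multiset (Fin d → ℤ)} (hfree : ¬ ZS k S)
    (hcong : ∀ x ∈ S, ∀ y ∈ S, cls x = cls y → ∀ i, (2 ^ k : ℤ) ∣ x i - y i)
    (u : Fin d → ZMod 2) : (S.map cls).count u ≤ 2 ^ k - 1 := by
  by_contra hlt
  have hpos : 1 ≤ 2 ^ k := Nat.one_le_two_pow
  have h1 : 2 ^ k ≤ card (S.filter fun x => u = cls x) := by
    rw [count_map] at hlt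
    omega
  obtain ⟨T, hT, hc⟩ := exists_le_card h1
  have h2 : 0 < card T := by rw [hc]; exact hpos
  obtain ⟨x, hx⟩ := card_pos_iff_exists_mem.1 h2
  have hx' := mem_filter.1 (mem_of_le hT hx)
  refine hfree ⟨T, hT.trans (filter_le _ _), hc, fun i => ?_⟩
  have h3 := sum_congr_of_all (N := 2 ^ k) x i T (by
    intro y hy
    have hy' := mem_filter.1 (mem_of_le hT hy)
    exact hcong y hy'.1 x hx'.1 (by rw [← hx'.2, ← hy'.2]) i)
  rw [hc] at h3
  have h4 : (2 ^ k : ℤ) ∣ ((2 ^ k : ℕ) : ℤ) * x i := by
    push_cast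
    exact dvd_mul_right _ _
  have := dvd_add h3 h4
  simpa using this

theorem count_eq {k : ℕ} {S : Multiset (Fin d → ℤ)} (hfree : ¬ ZS k S)
    (hcard : card S = (2 ^ k - 1) * 2 ^ d)
    (hcong : ∀ x ∈ S, ∀ y ∈ S, cls x = cls y → ∀ i, (2 ^ k : ℤ) ∣ x i - y i)
    (u : Fin d → ZMod 2) : (S.map cls).count u = 2 ^ k - 1 := by
  have h1 : ∑ v : Fin d → ZMod 2, (S.map cls).count v = ∑ _v : Fin d → ZMod 2, (2 ^ k - 1) := by
    rw [Multiset.sum_count_eq_card (fun a _ => Finset.mem_univ a)]
    simp [hcard, mul_comm]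
  exact (Finset.sum_eq_sum_iff_of_le fun v _ => count_le hfree hcong v).1 h1 u (Finset.mem_univ u)

/-- The structure of extremal multisets. -/
theorem structure_thm (k : ℕ) : ∀ S : Multiset (Fin d → ℤ), ¬ ZS k S →
    card S = (2 ^ k - 1) * 2 ^ d →
    ∀ x ∈ S, ∀ y ∈ S, cls x = cls y → ∀ i, (2 ^ k : ℤ) ∣ x i - y i := by
  induction k with
  | zero => intro S _ _ x _ y _ _ i; simp
  | succ k ih =>
    intro S hfree hcard x hx y hy hxy i
    rcases Nat.eq_zero_or_pos k with rfl | hk
    · have h1 : (y i : ZMod 2) = (x i : ZMod 2) := (congrFun hxy i).symm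
      have := (ZMod.intCast_eq_intCast_iff_dvd_sub _ _ _).1 h1
      simpa using this
    by_cases hne : x = y
    · simp [hne]
    -- general step
    have hpos : 2 ≤ 2 ^ k := by
      calc 2 = 2 ^ 1 := by norm_num
        _ ≤ 2 ^ k := Nat.pow_le_pow_right (by norm_num) hk
    have hposd : 1 ≤ 2 ^ d := Nat.one_le_two_pow
    have e1 : (2 ^ (k + 1) - 1) * 2 ^ d = 2 * ((2 ^ k - 1) * 2 ^ d) + 2 ^ d := by
      have : 2 ^ (k + 1) - 1 = 2 * (2 ^ k - 1) + 1 := by rw [pow_succ]; omega
      rw [this]; ring
    have hM : 1 ≤ (2 ^ k - 1) * 2 ^ d := Nat.mul_pos (by omega) hposd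
    obtain ⟨S', hS'⟩ : ∃ S', S = x ::ₘ y ::ₘ S' := by
      obtain ⟨S1, rfl⟩ := exists_cons_of_mem hx
      rcases mem_cons.1 hy with h | h
      · exact absurd h.symm hne
      · obtain ⟨S2, rfl⟩ := exists_cons_of_mem h
        exact ⟨S2, rfl⟩
    subst hS'
    simp only [card_cons] at hcard
    obtain ⟨P, R, rfl, hc, hP⟩ := pairing ((2 ^ k - 1) * 2 ^ d - 1) S' (by omega)
    have hR : card R = 2 ^ d := by
      simp only [card_add, card_map, hc] at hcard
      omega
    -- classes of `R` are distinct
    have hRn : (R.map cls).Nodup := by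
      by_contra hn
      obtain ⟨z, w, R', rfl, hzw⟩ := exists_pair hn
      apply hfree
      have h1 := harborth k (((x, y) ::ₘ (z, w) ::ₘ P).map half) (by simp [hc]; omega)
      have h2 := lift_pairs (P := (x, y) ::ₘ (z, w) ::ₘ P) (by
        intro p hp
        rcases mem_cons.1 hp with rfl | hp
        · exact hxy
        rcases mem_cons.1 hp with rfl | hp
        · exact hzw
        · exact hP p hp) h1
      refine h2.mono ?_
      refine Multiset.le_iff_exists_add.2 ⟨R', ?_⟩
      simp only [← singleton_add, Multiset.map_add, map_singleton]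
      abel
    obtain ⟨z, hz, hzx⟩ : ∃ z ∈ R, cls z = cls x := by
      have h1 : (R.map cls).toFinset = Finset.univ := by
        apply Finset.eq_univ_of_card
        rw [Multiset.toFinset_card_of_nodup hRn]
        simp [hR]
      have h2 : cls x ∈ (R.map cls).toFinset := by rw [h1]; exact Finset.mem_univ _
      simpa using h2
    obtain ⟨R', rfl⟩ := exists_cons_of_mem hz
    -- comparison of two pairings
    have comp : ∀ a b c : Fin d → ℤ, cls a = cls b → cls b = cls c →
        x ::ₘ y ::ₘ (P.map Prod.fst + P.map Prod.snd + z ::ₘ R')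
          = a ::ₘ b ::ₘ c ::ₘ (P.map Prod.fst + P.map Prod.snd + R') →
        ∀ i, (2 ^ (k + 1) : ℤ) ∣ b i - c i := by
      intro a b c hab hbc hS i
      have hfree1 : ¬ ZS k (half (a, b) ::ₘ P.map half) := by
        intro h
        apply hfree
        have h2 := lift_pairs (P := (a, b) ::ₘ P) (k := k) (by
          intro p hp
          rcases mem_cons.1 hp with rfl | hp
          · exact hab
          · exact hP p hp) (by simpa using h)
        refine h2.mono ?_
        rw [hS]
        refine Multiset.le_iff_exists_add.2 ⟨c ::ₘ R', ?_⟩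
        simp only [← singleton_add, Multiset.map_add, map_singleton]
        abel
      have hfree2 : ¬ ZS k (half (a, c) ::ₘ P.map half) := by
        intro h
        apply hfree
        have h2 := lift_pairs (P := (a, c) ::ₘ P) (k := k) (by
          intro p hp
          rcases mem_cons.1 hp with rfl | hp
          · exact hab.trans hbc
          · exact hP p hp) (by simpa using h)
        refine h2.mono ?_
        rw [hS]
        refine Multiset.le_iff_exists_add.2 ⟨b ::ₘ R', ?_⟩
        simp only [← singleton_add, Multiset.map_add, map_singleton]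
        abel
      have hc1 : card (half (a, b) ::ₘ P.map half) = (2 ^ k - 1) * 2 ^ d := by
        simp only [card_cons, card_map, hc]; omega
      have hc2 : card (half (a, c) ::ₘ P.map half) = (2 ^ k - 1) * 2 ^ d := by
        simp only [card_cons, card_map, hc]; omega
      have s1 := ih _ hfree1 hc1
      have s2 := ih _ hfree2 hc2
      have n1 := count_eq hfree1 hc1 s1
      have n2 := count_eq hfree2 hc2 s2
      have hcls : cls (half (a, b)) = cls (half (a, c)) := by
        by_contra hne'
        have m1 := n1 (cls (half (a, b)))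
        have m2 := n2 (cls (half (a, b)))
        rw [map_cons, count_cons_self] at m1
        rw [map_cons, count_cons_of_ne hne'] at m2
        omega
      have hdiv : (2 ^ k : ℤ) ∣ half (a, b) i - half (a, c) i := by
        rcases Nat.lt_or_ge 2 (2 ^ k) with hk2 | hk2
        · have m1 := n1 (cls (half (a, b)))
          rw [map_cons, count_cons_self] at m1
          have m3 : 0 < ((P.map half).map cls).count (cls (half (a, b))) := by omega
          rw [count_pos, Multiset.mem_map] at m3
          obtain ⟨h, hh, hcl⟩ := m3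
          have t1 := s1 (half (a, b)) (mem_cons_self _ _) h (mem_cons_of_mem hh) hcl.symm i
          have t2 := s2 h (mem_cons_of_mem hh) (half (a, c)) (mem_cons_self _ _)
            (hcl.trans hcls) i
          have := dvd_add t1 t2
          simpa using this
        · have hk1 : k = 1 := by
            have : 2 ^ k = 2 ^ 1 := by norm_num; omega
            exact Nat.pow_right_injective le_rfl this
          subst hk1
          have h1 : (half (a, c) i : ZMod 2) = (half (a, b) i : ZMod 2) := (congrFun hcls i).symm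
          have := (ZMod.intCast_eq_intCast_iff_dvd_sub _ _ _).1 h1
          simpa using this
      have e2 := two_half (p := (a, b)) hab i
      have e3 := two_half (p := (a, c)) (hab.trans hbc) i
      have e4 : b i - c i = 2 * (half (a, b) i - half (a, c) i) := by
        simp only at e2 e3; linarith
      rw [e4, pow_succ']
      exact mul_dvd_mul_left 2 hdiv
    refine comp z x y hzx hxy ?_ i
    simp only [← singleton_add]
    abel

theorem sum_filter_cls (S : Multiset (Fin d → ℤ)) :
    S = ∑ u : Fin d → ZMod 2, S.filter fun x => u = cls x := by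
  classical
  ext a
  rw [Multiset.count_sum']
  simp only [count_filter]
  rw [Finset.sum_ite_eq' Finset.univ (cls a) (fun _ => count a S)]
  simp

/-- For `1 ≤ d ≤ k` an extremal multiset is not zero-sum. -/
theorem not_zero_sum {k : ℕ} (hd : 1 ≤ d) (hdk : d ≤ k) {S : Multiset (Fin d → ℤ)}
    (hfree : ¬ ZS k S) (hcard : card S = (2 ^ k - 1) * 2 ^ d) : ¬ ∀ i, (2 ^ k : ℤ) ∣ S.sum i := by
  intro hsum
  have hcong := structure_thm k S hfree hcard
  have hcount := count_eq hfree hcard hcong
  have hk2 : 2 ≤ 2 ^ k := by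
    calc 2 = 2 ^ 1 := by norm_num
      _ ≤ 2 ^ k := Nat.pow_le_pow_right (by norm_num) (by omega)
  have hmem : ∀ u : Fin d → ZMod 2, ∃ x ∈ S, cls x = u := by
    intro u
    have : 0 < (S.map cls).count u := by rw [hcount u]; omega
    rw [count_pos, Multiset.mem_map] at this
    exact this
  choose t ht htc using hmem
  have hcardf : ∀ u, card (S.filter fun x => u = cls x) = 2 ^ k - 1 := by
    intro u
    rw [← count_map]
    exact hcount u
  have hpow : 2 ^ (k - d) ≤ 2 ^ k - 1 := by
    have h1 : 2 ^ (k - d) * 2 ≤ 2 ^ k := by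
      calc 2 ^ (k - d) * 2 = 2 ^ (k - d + 1) := by ring
        _ ≤ 2 ^ k := Nat.pow_le_pow_right (by norm_num) (by omega)
    have h2 : 1 ≤ 2 ^ (k - d) := Nat.one_le_two_pow
    omega
  have hT : ∀ u, ∃ T ≤ S.filter (fun x => u = cls x), card T = 2 ^ (k - d) := fun u =>
    exists_le_card (by rw [hcardf u]; exact hpow)
  choose T hTle hTc using hT
  apply hfree
  refine ⟨∑ u, T u, ?_, ?_, fun i => ?_⟩
  · conv_rhs => rw [sum_filter_cls S]
    exact Finset.sum_le_sum fun u _ => hTle u
  · rw [Multiset.card_sum]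
    simp only [hTc, Finset.sum_const, Finset.card_univ, Fintype.card_pi, ZMod.card,
      Finset.prod_const, Fintype.card_fin, smul_eq_mul]
    rw [← pow_add]
    congr 1
    omega
  · -- sum of the representatives
    have hrep : (2 ^ k : ℤ) ∣ ∑ u : Fin d → ZMod 2, t u i := by
      have h1 : ∀ u : Fin d → ZMod 2, (2 ^ k : ℤ) ∣
          (S.filter fun x => u = cls x).sum i + t u i := by
        intro u
        have h2 := sum_congr_of_all (N := 2 ^ k) (t u) i (S.filter fun x => u = cls x) (by
          intro y hy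
          have hy' := mem_filter.1 hy
          exact hcong y hy'.1 (t u) (ht u) (by rw [htc u, ← hy'.2]) i)
        rw [hcardf u] at h2
        have h3 : (2 ^ k : ℤ) ∣ ((2 ^ k : ℕ) : ℤ) * t u i := by
          push_cast
          exact dvd_mul_right _ _
        have h4 := dvd_add h2 h3
        have h5 : (S.filter fun x => u = cls x).sum i - ((2 ^ k - 1 : ℕ) : ℤ) * t u i
            + ((2 ^ k : ℕ) : ℤ) * t u i = (S.filter fun x => u = cls x).sum i + t u i := by
          rw [Nat.cast_sub (by omega : 1 ≤ 2 ^ k)]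
          push_cast
          ring
        rwa [h5] at h4
      have h6 := Finset.dvd_sum (s := Finset.univ) fun u _ => h1 u
      rw [Finset.sum_add_distrib] at h6
      have h7 : ∑ u : Fin d → ZMod 2, (S.filter fun x => u = cls x).sum i = S.sum i := by
        conv_rhs => rw [sum_filter_cls S]
        rw [Multiset.sum_sum, Finset.sum_apply]
      rw [h7] at h6
      exact (dvd_add_right (hsum i)).1 h6
    have h1 : (2 ^ k : ℤ) ∣ ∑ u : Fin d → ZMod 2, ((T u).sum i - (2 ^ (k - d) : ℤ) * t u i) := by
      refine Finset.dvd_sum fun u _ => ?_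
      have h2 := sum_congr_of_all (N := 2 ^ k) (t u) i (T u) (by
        intro y hy
        have hy' := mem_filter.1 (mem_of_le (hTle u) hy)
        exact hcong y hy'.1 (t u) (ht u) (by rw [htc u, ← hy'.2]) i)
      rw [hTc u] at h2
      exact_mod_cast h2
    rw [Finset.sum_sub_distrib, ← Finset.mul_sum] at h1
    have h3 := dvd_add h1 (hrep.mul_left (2 ^ (k - d) : ℤ))
    rw [Multiset.sum_sum, Finset.sum_apply]
    simpa using h3

/-! ### Back to `ZMod (2 ^ k)` -/

/-- Integer representatives of a vector of residues. -/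
def lft (n : ℕ) (v : Fin d → ZMod n) : Fin d → ℤ := fun i => ((v i).val : ℤ)

theorem lft_sum {n : ℕ} [NeZero n] (i : Fin d) : ∀ T : Multiset (Fin d → ZMod n),
    (((T.map (lft n)).sum i : ℤ) : ZMod n) = T.sum i := by
  intro T
  induction T using Multiset.induction with
  | empty => simp
  | cons v T ih =>
    simp only [map_cons, sum_cons, Pi.add_apply]
    push_cast
    rw [ih]
    simp [lft]

theorem dvd_lft_iff {n : ℕ} [NeZero n] (T : Multiset (Fin d → ZMod n)) :
    (∀ i, (n : ℤ) ∣ (T.map (lft n)).sum i) ↔ T.sum = 0 := by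
  constructor
  · intro h
    funext i
    rw [← lft_sum i T, (ZMod.intCast_zmod_eq_zero_iff_dvd _ _).2 (h i)]
    rfl
  · intro h i
    rw [← ZMod.intCast_zmod_eq_zero_iff_dvd, lft_sum i T, h]
    rfl

/-- A sequence over `(ZMod (2 ^ k)) ^ d` without zero-sum subsequence of length `2 ^ k`. -/
theorem free_lift {k : ℕ} {S : Multiset (Fin d → ZMod (2 ^ k))}
    (h : ¬ ∃ T ≤ S, card T = 2 ^ k ∧ T.sum = 0) : ¬ ZS k (S.map (lft (2 ^ k))) := by
  rintro ⟨T, hT, hc, hs⟩
  obtain ⟨T', hT', rfl⟩ := exists_of_le_map _ hT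
  refine h ⟨T', hT', by simpa using hc, (dvd_lft_iff T').1 fun i => ?_⟩
  have := hs i
  push_cast
  exact this

theorem upper_harborth {k : ℕ} {S : Multiset (Fin d → ZMod (2 ^ k))}
    (hS : (2 ^ k - 1) * 2 ^ d + 1 ≤ card S) : ∃ T ≤ S, card T = 2 ^ k ∧ T.sum = 0 := by
  by_contra h
  exact free_lift h (harborth k _ (by simpa using hS))

theorem upper_sharp {k : ℕ} (hd : 1 ≤ d) (hdk : d ≤ k) {S : Multiset (Fin d → ZMod (2 ^ k))}
    (hS : (2 ^ k - 1) * 2 ^ d ≤ card S) (hsum : S.sum = 0) :
    ∃ T ≤ S, card T = 2 ^ k ∧ T.sum = 0 := by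
  rcases Nat.lt_or_ge ((2 ^ k - 1) * 2 ^ d) (card S) with h | h
  · exact upper_harborth h
  by_contra hfree
  have h1 := not_zero_sum hd hdk (free_lift hfree) (by rw [card_map]; omega)
  apply h1
  have h2 := (dvd_lft_iff S).2 hsum
  intro i
  have := h2 i
  push_cast at this
  exact this

/-- A `0`-`1` vector over `ZMod n` attached to a subset. -/
def bvec (n : ℕ) (u : Finset (Fin d)) : Fin d → ZMod n := fun i => if i ∈ u then 1 else 0

/-- The extremal sequence: all `0`-`1` vectors with multiplicity `2 ^ k - 1`. -/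
def ext (k : ℕ) : Multiset (Finset (Fin d)) :=
  ∑ u : Finset (Fin d), replicate (2 ^ k - 1) u

theorem ext_card (k : ℕ) : card (ext (d := d) k) = (2 ^ k - 1) * 2 ^ d := by
  simp [ext, Multiset.card_sum, mul_comm]

theorem ext_count (k : ℕ) (u : Finset (Fin d)) : (ext k).count u = 2 ^ k - 1 := by
  simp [ext, Multiset.count_sum', count_replicate]

theorem bvec_sum (n : ℕ) (i : Fin d) : ∀ T : Multiset (Finset (Fin d)),
    (T.map (bvec n)).sum i = ((T.countP fun u => i ∈ u : ℕ) : ZMod n) := by
  intro T
  induction T using Multiset.induction with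
  | empty => simp
  | cons u T ih =>
    simp only [map_cons, sum_cons, Pi.add_apply, ih]
    rw [countP_cons]
    by_cases h : i ∈ u
    · simp [bvec, h, add_comm]
    · simp [bvec, h]

/-- Subsequences of the extremal sequence of length `2 ^ k` are not zero-sum. -/
theorem ext_free {k : ℕ} {T : Multiset (Finset (Fin d))} (hT : T ≤ ext k) (hc : card T = 2 ^ k) :
    (T.map (bvec (2 ^ k))).sum ≠ 0 := by
  intro hs
  have hpos : 1 ≤ 2 ^ k := Nat.one_le_two_pow
  have hcard : 0 < card T := by omega
  obtain ⟨u, hu⟩ := card_pos_iff_exists_mem.1 hcard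
  have key : ∀ v ∈ T, v = u := by
    intro v hv
    ext i
    have h1 : ((T.countP fun u => i ∈ u : ℕ) : ZMod (2 ^ k)) = 0 := by
      rw [← bvec_sum, hs]; rfl
    rw [ZMod.natCast_eq_zero_iff] at h1
    have h2 : (T.countP fun u => i ∈ u) ≤ 2 ^ k := by
      rw [← hc]; exact countP_le_card _ _
    by_cases hz : (T.countP fun u => i ∈ u) = 0
    · rw [countP_eq_zero] at hz
      exact ⟨fun h => absurd h (hz v hv), fun h => absurd h (hz u hu)⟩
    · have h3 : (T.countP fun u => i ∈ u) = card T := by
        rw [hc]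
        exact le_antisymm h2 (Nat.le_of_dvd (Nat.pos_of_ne_zero hz) h1)
      rw [countP_eq_card] at h3
      exact ⟨fun _ => h3 u hu, fun _ => h3 v hv⟩
  have h1 : T = replicate (2 ^ k) u := eq_replicate.2 ⟨hc, key⟩
  have h2 := count_le_of_le u hT
  rw [ext_count, h1, count_replicate_self] at h2
  omega

theorem ext_sum_zero {k : ℕ} (hdk : k < d) :
    ((ext (d := d) k).map (bvec (2 ^ k))).sum = 0 := by
  funext i
  have h1 : ((ext (d := d) k).map (bvec (2 ^ k))).sum
      = ∑ u : Finset (Fin d), (2 ^ k - 1) • bvec (2 ^ k) u := by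
    have hm : ∀ s : Finset (Finset (Fin d)),
        ((∑ u ∈ s, replicate (2 ^ k - 1) u).map (bvec (2 ^ k))).sum
          = ∑ u ∈ s, (2 ^ k - 1) • bvec (2 ^ k) u := by
      classical
      intro s
      induction s using Finset.induction_on with
      | empty => simp
      | insert a s ha ih =>
        rw [Finset.sum_insert ha, Finset.sum_insert ha, Multiset.map_add, Multiset.sum_add, ih]
        simp
    exact hm Finset.univ
  rw [h1, ← Finset.smul_sum]
  have h2 : (∑ u : Finset (Fin d), bvec (2 ^ k) u) i = 0 := by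
    rw [Finset.sum_apply]
    simp only [bvec]
    rw [Finset.sum_boole]
    have h3 : (Finset.univ.filter fun u : Finset (Fin d) => i ∈ u).card = 2 ^ (d - 1) := by
      have h4 : (Finset.univ.filter fun u : Finset (Fin d) => i ∈ u)
          = ((Finset.univ.erase i).powerset).image (fun v => insert i v) := by
        ext u
        simp only [Finset.mem_filter, Finset.mem_univ, true_and, Finset.mem_image,
          Finset.mem_powerset]
        constructor
        · intro h
          exact ⟨u.erase i, fun j hj => Finset.mem_erase.2 ⟨(Finset.mem_erase.1 hj).1,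
            Finset.mem_univ j⟩, Finset.insert_erase h⟩
        · rintro ⟨v, -, rfl⟩
          exact Finset.mem_insert_self i v
      rw [h4, Finset.card_image_of_injOn, Finset.card_powerset, Finset.card_erase_of_mem
        (Finset.mem_univ i)]
      · simp
      · intro a ha b hb hab
        simp only [Finset.coe_powerset, Set.mem_preimage, Set.mem_powerset_iff,
          Finset.coe_subset] at ha hb
        have ha' : i ∉ a := fun h => (Finset.mem_erase.1 (ha h)).1 rfl
        have hb' : i ∉ b := fun h => (Finset.mem_erase.1 (hb h)).1 rfl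
        have := congrArg (fun s => s.erase i) hab
        simpa [Finset.erase_insert ha', Finset.erase_insert hb'] using this
    rw [h3]
    rw [ZMod.natCast_eq_zero_iff]
    exact pow_dvd_pow 2 (by omega)
  rw [Pi.smul_apply, h2, smul_zero]
  rfl

theorem translate_sum (n : ℕ) (v : Fin d → ZMod n) (T : Multiset (Fin d → ZMod n)) :
    (T.map (fun x => x + v)).sum = T.sum + card T • v := by
  induction T using Multiset.induction with
  | empty => simp
  | cons x T ih => simp [ih, add_smul]; abel

/-- The value of the modified Erdős–Ginzburg–Ziv constant of `(ℤ/2^k)^d`. -/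
theorem result (k d l : ℕ) (hd : 1 ≤ d) (hl : IsLeast {l : ℕ | 2 ^ d ≤ l ∧ ¬ l ∣ 2 ^ k} l) :
    ∃ L : ℕ, IsLeast {L : ℕ | ∀ S : Multiset (Fin d → ZMod (2 ^ k)), S.sum = 0 → L ≤ card S →
      ∃ T ≤ S, card T = 2 ^ k ∧ T.sum = 0} L ∧ (L : ℤ) = 2 ^ d * 2 ^ k - l + 1 := by
  have hpos : 1 ≤ 2 ^ k := Nat.one_le_two_pow
  have hposd : 1 ≤ 2 ^ d := Nat.one_le_two_pow
  rcases Nat.lt_or_ge k d with hkd | hkd
  · -- `k < d`
    have hl' : l = 2 ^ d := by
      refine hl.unique ⟨⟨le_rfl, fun h => ?_⟩, fun m hm => hm.1⟩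
      have := Nat.le_of_dvd (by omega) h
      have h2 : 2 ^ k < 2 ^ d := Nat.pow_lt_pow_right (by norm_num) hkd
      omega
    refine ⟨(2 ^ k - 1) * 2 ^ d + 1, ⟨fun S _ hS => upper_harborth hS, ?_⟩, ?_⟩
    · intro L hL
      by_contra hlt
      obtain ⟨T, hT, hc, hs⟩ := hL ((ext (d := d) k).map (bvec (2 ^ k))) (ext_sum_zero hkd)
        (by rw [card_map, ext_card]; omega)
      obtain ⟨T', hT', rfl⟩ := exists_of_le_map _ hT
      exact ext_free hT' (by simpa using hc) hs
    · rw [hl']
      push_cast [Nat.cast_sub hpos]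
      ring
  · -- `d ≤ k`
    have hl' : l = 2 ^ d + 1 := by
      refine hl.unique ⟨⟨by omega, fun h => ?_⟩, fun m hm => ?_⟩
      · have h1 : Nat.Coprime (2 ^ d + 1) (2 ^ k) := by
          apply Nat.Coprime.pow_right
          rw [Nat.coprime_two_right]
          exact (Nat.even_pow.2 ⟨even_two, by omega⟩).add_one
        have h2 := Nat.Coprime.eq_one_of_dvd h1 h
        omega
      · rcases Nat.lt_or_ge (2 ^ d) m with h | h
        · exact h
        · have : m = 2 ^ d := le_antisymm h hm.1
          exact absurd (this ▸ pow_dvd_pow 2 hkd) hm.2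
    have hk2 : 2 ≤ 2 ^ k := by
      calc 2 = 2 ^ 1 := by norm_num
        _ ≤ 2 ^ k := Nat.pow_le_pow_right (by norm_num) (by omega)
    have hM : 1 ≤ (2 ^ k - 1) * 2 ^ d := Nat.mul_pos (by omega) hposd
    refine ⟨(2 ^ k - 1) * 2 ^ d, ⟨fun S hs hS => upper_sharp hd hkd hS hs, ?_⟩, ?_⟩
    · intro L hL
      by_contra hlt
      -- remove one element and translate
      have hex : ∃ E ≤ ext (d := d) k, card E = (2 ^ k - 1) * 2 ^ d - 1 :=
        exists_le_card (by rw [ext_card]; omega)
      obtain ⟨E, hE, hEc⟩ := hex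
      have hodd : Odd (card E) := by
        rw [hEc]
        have : Even ((2 ^ k - 1) * 2 ^ d) := (Nat.even_pow.2 ⟨even_two, by omega⟩).mul_left _
        exact Nat.Even.sub_odd hM this odd_one
      have hunit : IsUnit ((card E : ℕ) : ZMod (2 ^ k)) := by
        rw [ZMod.isUnit_iff_coprime]
        exact (Nat.coprime_two_right.2 hodd).pow_right k
      obtain ⟨w, hw⟩ := hunit.exists_right_inv
      set F := E.map (bvec (2 ^ k)) with hF
      set v : Fin d → ZMod (2 ^ k) := fun i => -(w * F.sum i) with hv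
      have hcF : card F = card E := by rw [hF, card_map]
      obtain ⟨T, hT, hc, hs⟩ := hL (F.map (fun x => x + v)) (by
        rw [translate_sum, hcF, hv]
        funext i
        rw [Pi.add_apply, Pi.smul_apply, nsmul_eq_mul, Pi.zero_apply]
        linear_combination (-(F.sum i)) * hw) (by rw [card_map, hcF]; omega)
      obtain ⟨T', hT', rfl⟩ := exists_of_le_map _ hT
      rw [hF] at hT'
      obtain ⟨T'', hT'', rfl⟩ := exists_of_le_map _ hT'
      simp only [card_map] at hc
      rw [translate_sum, card_map, hc] at hs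
      refine ext_free (hT''.trans hE) hc ?_
      have h0 : (2 ^ k) • v = 0 := by
        funext i
        rw [Pi.smul_apply, nsmul_eq_mul, Pi.zero_apply]
        have : (((2 ^ k : ℕ)) : ZMod (2 ^ k)) = 0 := ZMod.natCast_self _
        rw [this, zero_mul]
      rwa [h0, add_zero] at hs
    · rw [hl']
      push_cast [Nat.cast_sub hpos]
      ring

end Pool.Agent.Results.MP_4c442e_co.BergerWang
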